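import Pool.Agent.helper83.P2.SpecV
import Pool.Agent.helper80.P2.PSC

/-!
# Row p2:VSA: subadditivity and bounds of `Psf` and `pv`
-/

set_option autoImplicit false

open scoped ContDiff Topology
open MeasureTheory Filter Set Metric MvPolynomial Pool.Agent.helper37.QA Pool.Agent.P2

namespace Pool.Agent.P2V

/-- the derivative of the lift of the `m`-th iterate, by components -/
theorem VSA_hfd {d : ℕ} (f : Endo 2 d) (m : ℕ) (W : E3) :
    HasFDerivAt (It f m) (ContinuousLinearMap.pi fun j : Fin 3 => fderiv ℂ (fun Y : E3 => It f m Y j) W) W :=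
  hasFDerivAt_pi.2 fun j => (ENC_Itd f m j W).hasFDerivAt

theorem VSA_diff {d : ℕ} (f : Endo 2 d) (m : ℕ) (W : E3) : DifferentiableAt ℂ (It f m) W :=
  (VSA_hfd f m W).differentiableAt

theorem VSA_comp {d : ℕ} (f : Endo 2 d) (m : ℕ) (W X : E3) (j : Fin 3) :
    fderiv ℂ (It f m) W X j = fderiv ℂ (fun Y : E3 => It f m Y j) W X := by
  rw [(VSA_hfd f m W).fderiv]
  rfl

theorem VSA_add {d : ℕ} (f : Endo 2 d) (m n : ℕ) (W : E3) : It f (m + n) W = It f n (It f m W) := by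
  rw [add_comm m n]
  exact pmap_iter_add f.F n m W

theorem VSA_chain {d : ℕ} (f : Endo 2 d) (m n : ℕ) (W X : E3) :
    fderiv ℂ (It f (m + n)) W X = fderiv ℂ (It f n) (It f m W) (fderiv ℂ (It f m) W X) := by
  have h1 : It f (m + n) = It f n ∘ It f m := by
    funext Y
    exact VSA_add f m n Y
  rw [h1, fderiv_comp W (VSA_diff f n (It f m W)) (VSA_diff f m W)]
  rfl

/-- Euler -/
theorem VSA_euler {d : ℕ} (f : Endo 2 d) (m : ℕ) (W : E3) :
    fderiv ℂ (It f m) W W = ((d : ℂ) ^ m) • It f m W := by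
  funext j
  rw [VSA_comp, ENC_euler]
  simp

/-- the linear map `X ↦ It f m W × D(It f m)_W X` -/
noncomputable def VSA_T {d : ℕ} (f : Endo 2 d) (m : ℕ) (W X : E3) : E3 :=
  crs (It f m W) (fderiv ℂ (It f m) W X)

theorem VSA_crs_add (a b c : E3) : crs a (b + c) = crs a b + crs a c := by
  funext j
  fin_cases j <;> simp [crs] <;> ring

theorem VSA_crs_smul (a b : E3) (t : ℂ) : crs a (t • b) = t • crs a b := by
  funext j
  fin_cases j <;> simp [crs] <;> ring

theorem VSA_crs_self (a : E3) : crs a a = 0 := by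
  funext j
  fin_cases j <;> simp [crs] <;> ring

theorem VSA_T_add {d : ℕ} (f : Endo 2 d) (m : ℕ) (W X Y : E3) :
    VSA_T f m W (X + Y) = VSA_T f m W X + VSA_T f m W Y := by
  unfold VSA_T
  rw [map_add, VSA_crs_add]

theorem VSA_T_smul {d : ℕ} (f : Endo 2 d) (m : ℕ) (W X : E3) (t : ℂ) :
    VSA_T f m W (t • X) = t • VSA_T f m W X := by
  unfold VSA_T
  rw [map_smul, VSA_crs_smul]

theorem VSA_T_self {d : ℕ} (f : Endo 2 d) (m : ℕ) (W : E3) : VSA_T f m W W = 0 := by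
  unfold VSA_T
  rw [VSA_euler, VSA_crs_smul, VSA_crs_self, smul_zero]

/-- `S = ∑_j |T e_j|²` -/
noncomputable def VSA_S {d : ℕ} (f : Endo 2 d) (m : ℕ) (W : E3) : ℝ :=
  ∑ i : Fin 3, nq (VSA_T f m W (Pi.single i 1))

theorem VSA_S_nn {d : ℕ} (f : Endo 2 d) (m : ℕ) (W : E3) : 0 ≤ VSA_S f m W :=
  Finset.sum_nonneg fun _ _ => ENT_nqnn _

theorem VSA_split (Y : E3) :
    Y = (Y 0) • (Pi.single 0 1 : E3) + (Y 1) • (Pi.single 1 1 : E3) + (Y 2) • (Pi.single 2 1 : E3) := by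
  funext j
  fin_cases j <;> simp

/-- Cauchy-Schwarz: `|T Y|² ≤ S |Y|²` -/
theorem VSA_cs1 {d : ℕ} (f : Endo 2 d) (m : ℕ) (W Y : E3) :
    nq (VSA_T f m W Y) ≤ VSA_S f m W * nq Y := by
  set A : Fin 3 → E3 := fun i => VSA_T f m W (Pi.single i 1) with hA
  have h1 : VSA_T f m W Y = (Y 0) • A 0 + (Y 1) • A 1 + (Y 2) • A 2 := by
    conv_lhs => rw [VSA_split Y]
    rw [VSA_T_add, VSA_T_add, VSA_T_smul, VSA_T_smul, VSA_T_smul]
  have h2 : ∀ l : Fin 3, Complex.normSq (VSA_T f m W Y l) ≤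
      (Complex.normSq (A 0 l) + Complex.normSq (A 1 l) + Complex.normSq (A 2 l)) * nq Y := by
    intro l
    have h3 := ENT_cs (fun i : Fin 3 => A i l) Y
    have h4 : nq (fun i : Fin 3 => A i l) =
        Complex.normSq (A 0 l) + Complex.normSq (A 1 l) + Complex.normSq (A 2 l) := ENC_nq3 _
    rw [h4] at h3
    have h5 : VSA_T f m W Y l = A 0 l * Y 0 + A 1 l * Y 1 + A 2 l * Y 2 := by
      rw [h1]
      simp only [Pi.add_apply, Pi.smul_apply, smul_eq_mul]
      ring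
    rw [h5]
    exact h3
  have e1 := h2 0
  have e2 := h2 1
  have e3 := h2 2
  have h6 : VSA_S f m W = nq (A 0) + nq (A 1) + nq (A 2) := by
    unfold VSA_S
    rw [Fin.sum_univ_three]
  rw [h6, ENC_nq3 (A 0), ENC_nq3 (A 1), ENC_nq3 (A 2), ENC_nq3 (VSA_T f m W Y)]
  nlinarith

/-- `|T X|² |W|² ≤ S |W × X|²` -/
theorem VSA_cs {d : ℕ} (f : Endo 2 d) (m : ℕ) (W X : E3) (hW : W ≠ 0) :
    nq (VSA_T f m W X) * nq W ≤ VSA_S f m W * nq (crs W X) := by
  have hp := ENC_nqpos hW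
  set s : ℂ := (starRingEnd ℂ) (W 0) * X 0 + (starRingEnd ℂ) (W 1) * X 1 + (starRingEnd ℂ) (W 2) * X 2 with hs
  set Y : E3 := ((nq W : ℝ) : ℂ) • X + (-s) • W with hY
  have h1 : VSA_T f m W Y = ((nq W : ℝ) : ℂ) • VSA_T f m W X := by
    rw [hY, VSA_T_add, VSA_T_smul, VSA_T_smul, VSA_T_self, smul_zero, add_zero]
  have h2 : crs (fun i => (starRingEnd ℂ) (W i)) (crs W X) = (-1 : ℂ) • Y := by
    have h := ENC_nqc W
    funext j
    rw [hY, h, hs]
    fin_cases j <;> simp [crs] <;> ring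
  have h3 : nq Y ≤ nq W * nq (crs W X) := by
    have h4 := ENT_lag (fun i => (starRingEnd ℂ) (W i)) (crs W X)
    rw [h2, PSC_nqsmul, ENT_nqconj] at h4
    simpa using h4
  have h5 := VSA_cs1 f m W Y
  rw [h1, PSC_nqsmul, Complex.normSq_ofReal] at h5
  have h6 : nq W * (nq (VSA_T f m W X) * nq W) ≤ nq W * (VSA_S f m W * nq (crs W X)) := by
    calc nq W * (nq (VSA_T f m W X) * nq W) = nq W * nq W * nq (VSA_T f m W X) := by ring
      _ ≤ VSA_S f m W * nq Y := h5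
      _ ≤ VSA_S f m W * (nq W * nq (crs W X)) := mul_le_mul_of_nonneg_left h3 (VSA_S_nn f m W)
      _ = _ := by ring
  exact le_of_mul_le_mul_left h6 hp

theorem VSA_hop {d : ℕ} (f : Endo 2 d) (m N : ℕ) (W : E3) :
    hop f m N W = nq W * VSA_S f m W * Real.exp (-(4 * (d : ℝ) ^ m * un f N W)) := rfl

theorem VSA_hopnn {d : ℕ} (f : Endo 2 d) (m N : ℕ) (W : E3) : 0 ≤ hop f m N W := by
  rw [VSA_hop]
  exact mul_nonneg (mul_nonneg (ENT_nqnn _) (VSA_S_nn f m W)) (Real.exp_pos _).le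

theorem VSA_Rvnn {d : ℕ} (f : Endo 2 d) (m N : ℕ) (W V : E3) : 0 ≤ Rv f m N W V := by
  unfold Rv
  exact mul_nonneg (div_nonneg (ENT_nqnn _) (ENT_nqnn _)) (Real.exp_pos _).le

theorem VSA_Rv {d : ℕ} (f : Endo 2 d) (m N : ℕ) (W V : E3) :
    Rv f m N W V = nq (VSA_T f m W V) / nq (crs W V) *
      Real.exp (4 * un f N W - 4 * (d : ℝ) ^ m * un f N W) := rfl

/-- `u_(N-m)(F^m W) = d^m u_N(W)` -/
theorem VSA_un {d : ℕ} (f : Endo 2 d) (hd : 2 ≤ d) (m N : ℕ) (hm : m ≤ N) (W : E3) :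
    un f (N - m) (It f m W) = (d : ℝ) ^ m * un f N W := by
  unfold un
  have h1 : It f (N - m) (It f m W) = It f N W := by
    rw [← VSA_add, Nat.add_sub_cancel' hm]
  have hd0 : (d : ℝ) ≠ 0 := by
    have : (2 : ℝ) ≤ d := by exact_mod_cast hd
    positivity
  have h2 : (d : ℝ) ^ N = (d : ℝ) ^ m * (d : ℝ) ^ (N - m) := by
    rw [← pow_add, Nat.add_sub_cancel' hm]
  rw [h1, h2]
  field_simp

/-- the iterates of the cone -/
theorem VSA_cone {d : ℕ} (f : Endo 2 d) (U : Set (PP 2)) (hU : IsTrapping f U) (m : ℕ) {W : E3}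
    (hW : W ∈ cone U) : It f m W ∈ cone U := by
  induction m with
  | zero =>
    rw [PSC_It0]
    exact hW
  | succ m ih =>
    rw [VSA_add f m 1 W]
    exact PSC_coneF f U hU ih

theorem VSA_Tadd {d : ℕ} (f : Endo 2 d) (m n : ℕ) (W X : E3) :
    VSA_T f (m + n) W X = VSA_T f n (It f m W) (fderiv ℂ (It f m) W X) := by
  unfold VSA_T
  rw [VSA_chain, VSA_add]

/-- from a bound for `a` to a bound for the truncated logarithm -/
theorem VSA_log (a b c K Λ : ℝ) (m n : ℕ) (hb : 0 ≤ b) (hc : 0 ≤ c) (ha : 0 ≤ a) (hK : 0 ≤ K)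
    (h : a ≤ Real.exp K * (b * c)) :
    Real.log (a + Real.exp (-(Λ * ((m + n : ℕ) : ℝ)))) ≤
      Real.log (b + Real.exp (-(Λ * m))) + Real.log (c + Real.exp (-(Λ * n))) + K := by
  have e1 := Real.exp_pos (-(Λ * m))
  have e2 := Real.exp_pos (-(Λ * n))
  have e3 : Real.exp (-(Λ * ((m + n : ℕ) : ℝ))) = Real.exp (-(Λ * m)) * Real.exp (-(Λ * n)) := by
    rw [← Real.exp_add]
    congr 1
    push_cast
    ring
  have p1 : 0 < b + Real.exp (-(Λ * m)) := by linarith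
  have p2 : 0 < c + Real.exp (-(Λ * n)) := by linarith
  have hE : 1 ≤ Real.exp K := Real.one_le_exp hK
  have h1 : a + Real.exp (-(Λ * ((m + n : ℕ) : ℝ))) ≤
      Real.exp K * ((b + Real.exp (-(Λ * m))) * (c + Real.exp (-(Λ * n)))) := by
    rw [e3]
    have h2 : Real.exp (-(Λ * m)) * Real.exp (-(Λ * n)) ≤
        Real.exp K * (Real.exp (-(Λ * m)) * Real.exp (-(Λ * n))) :=
      le_mul_of_one_le_left (mul_pos e1 e2).le hE
    have h3 : 0 ≤ Real.exp K * (b * Real.exp (-(Λ * n)) + Real.exp (-(Λ * m)) * c) := by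
      positivity
    nlinarith
  have h4 : 0 < a + Real.exp (-(Λ * ((m + n : ℕ) : ℝ))) := by
    have := Real.exp_pos (-(Λ * ((m + n : ℕ) : ℝ)))
    linarith
  have h5 := Real.log_le_log h4 h1
  rw [Real.log_mul (Real.exp_pos K).ne' (mul_pos p1 p2).ne', Real.log_mul p1.ne' p2.ne', Real.log_exp] at h5
  linarith

theorem VSA_log0 (a Λ : ℝ) (m : ℕ) (ha : 0 ≤ a) : -(Λ * m) ≤ Real.log (a + Real.exp (-(Λ * m))) := by
  have h := Real.log_le_log (Real.exp_pos (-(Λ * m))) (by linarith : Real.exp (-(Λ * m)) ≤ a + Real.exp (-(Λ * m)))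
  rwa [Real.log_exp] at h

theorem VSA_hop1 {d : ℕ} (f : Endo 2 d) (U : Set (PP 2)) (hd : 2 ≤ d) (hU : IsTrapping f U) (C : ℝ)
    (hC : ∀ n : ℕ, ∀ Z ∈ cone U, |un f n Z - (1 / 2) * Real.log (nq Z)| ≤ C)
    (m n N : ℕ) (hm : m ≤ N) (W : E3) (hW : W ∈ cone U) :
    hop f (m + n) N W ≤ Real.exp (4 * C) * (hop f m N W * hop f n (N - m) (It f m W)) := by
  set H := It f m W with hH
  have hHc : H ∈ cone U := VSA_cone f U hU m hW
  have hH0 : H ≠ 0 := hHc.1
  have hp := ENC_nqpos hH0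
  have hu : un f (N - m) H = (d : ℝ) ^ m * un f N W := VSA_un f hd m N hm W
  have h1 : VSA_S f (m + n) W * nq H ≤ VSA_S f n H * VSA_S f m W := by
    have h2 : ∀ i : Fin 3, nq (VSA_T f (m + n) W (Pi.single i 1)) * nq H ≤
        VSA_S f n H * nq (VSA_T f m W (Pi.single i 1)) := by
      intro i
      rw [VSA_Tadd]
      exact VSA_cs f n H _ hH0
    unfold VSA_S at h2 ⊢
    rw [Fin.sum_univ_three (f := fun i => nq (VSA_T f (m + n) W (Pi.single i 1))),
      Fin.sum_univ_three (f := fun i => nq (VSA_T f m W (Pi.single i 1)))]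
    have e0 := h2 0
    have e1 := h2 1
    have e2 := h2 2
    linarith
  have h3 : 1 ≤ Real.exp (4 * C) * (nq H ^ 2 * Real.exp (-(4 * ((d : ℝ) ^ m * un f N W)))) := by
    have h4 : nq H ^ 2 = Real.exp (4 * ((1 / 2) * Real.log (nq H))) := by
      rw [show 4 * ((1 / 2) * Real.log (nq H)) = Real.log (nq H) + Real.log (nq H) by ring, Real.exp_add,
        Real.exp_log hp]
      ring
    rw [h4, ← Real.exp_add, ← Real.exp_add]
    apply Real.one_le_exp
    have h5 := (abs_le.1 (hC (N - m) H hHc)).2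
    rw [hu] at h5
    linarith
  set A := nq W * Real.exp (-(4 * (d : ℝ) ^ m * un f N W)) with hA
  set B := Real.exp (-(4 * (d : ℝ) ^ (m + n) * un f N W)) with hB
  have hB' : Real.exp (-(4 * (d : ℝ) ^ n * un f (N - m) H)) = B := by
    rw [hu, hB]
    congr 1
    ring
  have hBp : 0 < B := Real.exp_pos _
  rw [VSA_hop, VSA_hop, VSA_hop, hB', ← hB]
  have hS := VSA_S_nn f (m + n) W
  have hW0 := ENT_nqnn W
  calc nq W * VSA_S f (m + n) W * B = (nq W * VSA_S f (m + n) W * B) * 1 := by ring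
    _ ≤ (nq W * VSA_S f (m + n) W * B) *
        (Real.exp (4 * C) * (nq H ^ 2 * Real.exp (-(4 * ((d : ℝ) ^ m * un f N W))))) :=
      mul_le_mul_of_nonneg_left h3 (mul_nonneg (mul_nonneg hW0 hS) hBp.le)
    _ = (Real.exp (4 * C) * Real.exp (-(4 * ((d : ℝ) ^ m * un f N W))) * nq W * nq H * B) *
        (VSA_S f (m + n) W * nq H) := by ring
    _ ≤ (Real.exp (4 * C) * Real.exp (-(4 * ((d : ℝ) ^ m * un f N W))) * nq W * nq H * B) *
        (VSA_S f n H * VSA_S f m W) := mul_le_mul_of_nonneg_left h1 (by positivity)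
    _ = _ := by
      rw [show (4 * (d : ℝ) ^ m * un f N W) = 4 * ((d : ℝ) ^ m * un f N W) by ring]
      ring

theorem VSA_Rvadd {d : ℕ} (f : Endo 2 d) (U : Set (PP 2)) (hd : 2 ≤ d) (hU : IsTrapping f U)
    (m n N : ℕ) (hm : m ≤ N) (W V : E3) (hW : W ∈ cone U) :
    Rv f (m + n) N W V ≤ Rv f m N W V * Rv f n (N - m) (It f m W) (fderiv ℂ (It f m) W V) := by
  set H := It f m W with hH
  have hHc : H ∈ cone U := VSA_cone f U hU m hW
  have hH0 : H ≠ 0 := hHc.1
  have hp := ENC_nqpos hH0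
  have hu : un f (N - m) H = (d : ℝ) ^ m * un f N W := VSA_un f hd m N hm W
  have hT : crs H (fderiv ℂ (It f m) W V) = VSA_T f m W V := rfl
  by_cases h0 : nq (VSA_T f m W V) = 0
  · have h1 := VSA_cs f n H (fderiv ℂ (It f m) W V) hH0
    rw [← VSA_Tadd, hT, h0, mul_zero] at h1
    have h2 : nq (VSA_T f (m + n) W V) = 0 := by
      have h3 := ENT_nqnn (VSA_T f (m + n) W V)
      nlinarith
    have h4 : Rv f (m + n) N W V = 0 := by
      rw [VSA_Rv, h2, zero_div, zero_mul]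
    rw [h4]
    exact mul_nonneg (VSA_Rvnn _ _ _ _ _) (VSA_Rvnn _ _ _ _ _)
  · apply le_of_eq
    rw [VSA_Rv, VSA_Rv, VSA_Rv, ← VSA_Tadd, hT, hu]
    have e1 : Real.exp (4 * un f N W - 4 * (d : ℝ) ^ (m + n) * un f N W) =
        Real.exp (4 * un f N W - 4 * (d : ℝ) ^ m * un f N W) *
        Real.exp (4 * ((d : ℝ) ^ m * un f N W) - 4 * (d : ℝ) ^ n * ((d : ℝ) ^ m * un f N W)) := by
      rw [← Real.exp_add]
      congr 1
      ring
    rw [e1]
    have e2 : nq (VSA_T f (m + n) W V) / nq (crs W V) =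
        nq (VSA_T f m W V) / nq (crs W V) * (nq (VSA_T f (m + n) W V) / nq (VSA_T f m W V)) := by
      rw [div_mul_div_comm, mul_comm (nq (crs W V)), mul_div_mul_left _ _ h0]
    rw [e2]
    ring

theorem VSA_Rvhop {d : ℕ} (f : Endo 2 d) (U : Set (PP 2)) (C : ℝ)
    (hC : ∀ n : ℕ, ∀ Z ∈ cone U, |un f n Z - (1 / 2) * Real.log (nq Z)| ≤ C)
    (m N : ℕ) (W V : E3) (hW : W ∈ cone U) :
    Rv f m N W V ≤ Real.exp (4 * C) * hop f m N W := by
  have hp := ENC_nqpos hW.1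
  by_cases h0 : nq (crs W V) = 0
  · rw [VSA_Rv, h0, div_zero, zero_mul]
    exact mul_nonneg (Real.exp_pos _).le (VSA_hopnn _ _ _ _)
  · have h0' : 0 < nq (crs W V) := lt_of_le_of_ne (ENT_nqnn _) (Ne.symm h0)
    have h1 : nq (VSA_T f m W V) / nq (crs W V) ≤ VSA_S f m W / nq W := by
      rw [div_le_div_iff₀ h0' hp]
      exact VSA_cs f m W V hW.1
    have h2 : Real.exp (4 * un f N W) ≤ Real.exp (4 * C) * nq W ^ 2 := by
      have h4 : nq W ^ 2 = Real.exp (4 * ((1 / 2) * Real.log (nq W))) := by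
        rw [show 4 * ((1 / 2) * Real.log (nq W)) = Real.log (nq W) + Real.log (nq W) by ring, Real.exp_add,
          Real.exp_log hp]
        ring
      rw [h4, ← Real.exp_add]
      apply Real.exp_le_exp.2
      have h5 := (abs_le.1 (hC N W hW)).2
      linarith
    have e1 : Real.exp (4 * un f N W - 4 * (d : ℝ) ^ m * un f N W) =
        Real.exp (4 * un f N W) * Real.exp (-(4 * (d : ℝ) ^ m * un f N W)) := by
      rw [← Real.exp_add]
      congr 1
    rw [VSA_Rv, VSA_hop, e1]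
    have hS := VSA_S_nn f m W
    have hE := Real.exp_pos (-(4 * (d : ℝ) ^ m * un f N W))
    calc nq (VSA_T f m W V) / nq (crs W V) * (Real.exp (4 * un f N W) * Real.exp (-(4 * (d : ℝ) ^ m * un f N W)))
        ≤ VSA_S f m W / nq W * (Real.exp (4 * un f N W) * Real.exp (-(4 * (d : ℝ) ^ m * un f N W))) :=
          mul_le_mul_of_nonneg_right h1 (by positivity)
      _ ≤ VSA_S f m W / nq W * ((Real.exp (4 * C) * nq W ^ 2) * Real.exp (-(4 * (d : ℝ) ^ m * un f N W))) := by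
          apply mul_le_mul_of_nonneg_left _ (div_nonneg hS hp.le)
          exact mul_le_mul_of_nonneg_right h2 hE.le
      _ = _ := by
          field_simp

theorem VSA_T0 {d : ℕ} (f : Endo 2 d) (W X : E3) : VSA_T f 0 W X = crs W X := by
  unfold VSA_T
  have h1 : It f 0 = fun Y : E3 => Y := by
    funext Y
    exact PSC_It0 f Y
  rw [h1]
  have h2 : fderiv ℂ (fun Y : E3 => Y) W X = X := by
    rw [fderiv_fun_id]
    rfl
  rw [h2]

theorem VSA_S0 {d : ℕ} (f : Endo 2 d) (W : E3) : VSA_S f 0 W = 2 * nq W := by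
  unfold VSA_S
  rw [Fin.sum_univ_three, VSA_T0, VSA_T0, VSA_T0, ENC_nq3, ENC_nq3, ENC_nq3, ENC_nq3]
  simp [crs, Complex.normSq_neg]
  ring

theorem VSA_S1 {d : ℕ} (f : Endo 2 d) (W : E3) : VSA_S f 1 W ≤ nq (It f 1 W) * PSC_H f W := by
  unfold VSA_S PSC_H
  rw [Finset.mul_sum]
  refine Finset.sum_le_sum fun i _ => ?_
  unfold VSA_T
  have h1 : fderiv ℂ (It f 1) W (Pi.single i 1) =
      fun j : Fin 3 => fderiv ℂ (fun W : E3 => It f 1 W j) W (Pi.single i 1) := by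
    funext j
    exact VSA_comp f 1 W _ j
  rw [h1]
  exact ENT_lag _ _

theorem VSA (hUN1 : UN1_stmt) : VSA_stmt := by
  intro d f U hd hU
  obtain ⟨C0, hC0, -, hun, -, -⟩ := hUN1 d f U hd hU
  obtain ⟨C1, hC1, hH⟩ := PSC_Hbound f
  have hC : ∀ n : ℕ, ∀ Z ∈ cone U, |un f n Z - (1 / 2) * Real.log (nq Z)| ≤ C0 :=
    fun n Z hZ => hun n Z ⟨hZ.1, subset_closure hZ.2⟩
  set K : ℝ := Real.exp (4 * C0) with hK
  have hK1 : 1 ≤ K := Real.one_le_exp (by linarith)
  have hsq : ∀ (N : ℕ) (W : E3), W ∈ cone U → nq W ^ 2 * Real.exp (-(4 * un f N W)) ≤ K := by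
    intro N W hW
    have hp := ENC_nqpos hW.1
    have h4 : nq W ^ 2 = Real.exp (4 * ((1 / 2) * Real.log (nq W))) := by
      rw [show 4 * ((1 / 2) * Real.log (nq W)) = Real.log (nq W) + Real.log (nq W) by ring, Real.exp_add,
        Real.exp_log hp]
      ring
    rw [h4, ← Real.exp_add, hK]
    apply Real.exp_le_exp.2
    have h5 := (abs_le.1 (hC N W hW)).1
    linarith
  have hh0 : ∀ (N : ℕ) (W : E3), W ∈ cone U → hop f 0 N W ≤ 2 * K := by
    intro N W hW
    rw [VSA_hop, VSA_S0]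
    have h := hsq N W hW
    have e : -(4 * (d : ℝ) ^ 0 * un f N W) = -(4 * un f N W) := by
      rw [pow_zero, mul_one]
    rw [e]
    calc nq W * (2 * nq W) * Real.exp (-(4 * un f N W)) = 2 * (nq W ^ 2 * Real.exp (-(4 * un f N W))) := by ring
      _ ≤ 2 * K := by linarith
  have hh1 : ∀ (N : ℕ) (W : E3), 1 ≤ N → W ∈ cone U → hop f 1 N W ≤ C1 * K := by
    intro N W hN hW
    have hF : It f 1 W ∈ cone U := PSC_coneF f U hU.1 hW
    have h := hsq (N - 1) (It f 1 W) hF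
    rw [VSA_un f hd 1 N hN W] at h
    have e : -(4 * (d : ℝ) ^ 1 * un f N W) = -(4 * ((d : ℝ) ^ 1 * un f N W)) := by ring
    rw [VSA_hop, e]
    have h1 := VSA_S1 f W
    have h2 := hH W hW.1
    have hE := Real.exp_pos (-(4 * ((d : ℝ) ^ 1 * un f N W)))
    have hW0 := ENT_nqnn W
    have hF0 := ENT_nqnn (It f 1 W)
    calc nq W * VSA_S f 1 W * Real.exp (-(4 * ((d : ℝ) ^ 1 * un f N W)))
        ≤ nq W * (nq (It f 1 W) * PSC_H f W) * Real.exp (-(4 * ((d : ℝ) ^ 1 * un f N W))) :=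
          mul_le_mul_of_nonneg_right (mul_le_mul_of_nonneg_left h1 hW0) hE.le
      _ = nq (It f 1 W) * (PSC_H f W * nq W) * Real.exp (-(4 * ((d : ℝ) ^ 1 * un f N W))) := by ring
      _ ≤ nq (It f 1 W) * (C1 * nq (It f 1 W)) * Real.exp (-(4 * ((d : ℝ) ^ 1 * un f N W))) :=
          mul_le_mul_of_nonneg_right (mul_le_mul_of_nonneg_left h2 hF0) hE.le
      _ = C1 * (nq (It f 1 W) ^ 2 * Real.exp (-(4 * ((d : ℝ) ^ 1 * un f N W)))) := by ring
      _ ≤ C1 * K := mul_le_mul_of_nonneg_left h (by linarith)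
  set B : ℝ := 2 * C1 * K ^ 2 with hB
  have hB2 : 2 ≤ B := by
    rw [hB]
    nlinarith [mul_le_mul hC1 (one_le_pow₀ hK1 : 1 ≤ K ^ 2) (by norm_num) (by linarith : 0 ≤ C1)]
  have hm : ∀ (m N : ℕ) (W : E3), m ≤ N → W ∈ cone U → hop f m N W ≤ B ^ (m + 1) := by
    intro m
    induction m with
    | zero =>
      intro N W _ hW
      have h := hh0 N W hW
      rw [zero_add, pow_one, hB]
      have h1 : K ≤ C1 * K ^ 2 := by
        calc K = 1 * (K * 1) := by ring
          _ ≤ C1 * (K * K) := mul_le_mul hC1 (mul_le_mul_of_nonneg_left hK1 (by linarith)) (by linarith) (by linarith)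
          _ = _ := by ring
      linarith
    | succ m ih =>
      intro N W hN hW
      have h1 := VSA_hop1 f U hd hU.1 C0 hC 1 m N (by omega) W hW
      have hF : It f 1 W ∈ cone U := PSC_coneF f U hU.1 hW
      have h2 := ih (N - 1) (It f 1 W) (by omega) hF
      have h3 := hh1 N W (by omega) hW
      have e : m + 1 = 1 + m := by ring
      rw [e]
      have hn := VSA_hopnn f m (N - 1) (It f 1 W)
      have hC1K : 0 ≤ C1 * K := mul_nonneg (by linarith) (by linarith)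
      calc hop f (1 + m) N W ≤ K * (hop f 1 N W * hop f m (N - 1) (It f 1 W)) := h1
        _ ≤ K * (C1 * K * B ^ (m + 1)) := by
          apply mul_le_mul_of_nonneg_left _ (by linarith)
          exact mul_le_mul h3 h2 hn hC1K
        _ = (C1 * K ^ 2) * B ^ (m + 1) := by ring
        _ ≤ B * B ^ (m + 1) := by
          apply mul_le_mul_of_nonneg_right _ (by positivity)
          rw [hB]
          have : 0 ≤ C1 * K ^ 2 := mul_nonneg (by linarith) (by positivity)
          linarith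
        _ = B ^ (1 + m + 1) := by ring
  have hlog : ∀ (Λ : ℝ) (m N : ℕ) (W : E3), 0 ≤ Λ → m ≤ N → W ∈ cone U →
      Psf f Λ m N W ≤ Real.log (2 * B) * (m + 1) := by
    intro Λ m N W hΛ hmN hW
    have h1 := hm m N W hmN hW
    have h2 : Real.exp (-(Λ * m)) ≤ 1 := Real.exp_le_one_iff.2 (by
      have : 0 ≤ Λ * m := by positivity
      linarith)
    have hE := Real.exp_pos (-(Λ * m))
    have h0 := VSA_hopnn f m N W
    have h3 : hop f m N W + Real.exp (-(Λ * m)) ≤ (2 * B) ^ (m + 1) := by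
      have h4 : 1 ≤ B ^ (m + 1) := one_le_pow₀ (by linarith)
      have h5 : (2 : ℝ) ≤ 2 ^ (m + 1) := by
        calc (2 : ℝ) = 2 ^ 1 := by norm_num
          _ ≤ 2 ^ (m + 1) := pow_le_pow_right₀ (by norm_num) (by omega)
      rw [mul_pow]
      nlinarith
    have h6 := Real.log_le_log (by linarith) h3
    rw [Real.log_pow] at h6
    show Real.log (hop f m N W + Real.exp (-(Λ * m))) ≤ _
    push_cast at h6
    linarith
  have hL : 0 ≤ Real.log (2 * B) := Real.log_nonneg (by linarith)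
  refine ⟨4 * C0 + Real.log (2 * B) + 1, by linarith, ?_⟩
  intro Λ m n N hΛ hmN W hW V
  have hlow : ∀ a : ℝ, 0 ≤ a → -((4 * C0 + Real.log (2 * B) + 1 + Λ) * (m + 1)) ≤
      Real.log (a + Real.exp (-(Λ * m))) := by
    intro a ha
    have h1 := VSA_log0 a Λ m ha
    have h2 : 0 ≤ (4 * C0 + Real.log (2 * B) + 1) * ((m : ℝ) + 1) := by positivity
    nlinarith
  have h3 : pv f Λ m N W V ≤ Psf f Λ m N W + 4 * C0 := by
    have h1 := VSA_Rvhop f U C0 hC m N W V hW
    have hE := Real.exp_pos (-(Λ * m))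
    have hR := VSA_Rvnn f m N W V
    have hh := VSA_hopnn f m N W
    have h2 : Rv f m N W V + Real.exp (-(Λ * m)) ≤ K * (hop f m N W + Real.exp (-(Λ * m))) := by
      have h4 : Real.exp (-(Λ * m)) ≤ K * Real.exp (-(Λ * m)) := le_mul_of_one_le_left hE.le hK1
      rw [mul_add]
      exact add_le_add h1 h4
    have h5 := Real.log_le_log (by linarith) h2
    rw [Real.log_mul (by linarith) (by linarith), hK, Real.log_exp] at h5
    show Real.log (Rv f m N W V + Real.exp (-(Λ * m))) ≤ Real.log (hop f m N W + Real.exp (-(Λ * m))) + _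
    linarith
  have hP := hlog Λ m N W hΛ hmN hW
  refine ⟨?_, ?_, ?_, ?_, ?_⟩
  · have h1 := VSA_hop1 f U hd hU.1 C0 hC m n N hmN W hW
    have h2 := VSA_log _ _ _ (4 * C0) Λ m n (VSA_hopnn f m N W) (VSA_hopnn f n (N - m) (It f m W))
      (VSA_hopnn f (m + n) N W) (by linarith) h1
    unfold Psf
    linarith
  · have h1 := VSA_Rvadd f U hd hU.1 m n N hmN W V hW
    have h2 := VSA_log (Rv f (m + n) N W V) (Rv f m N W V)
      (Rv f n (N - m) (It f m W) (fderiv ℂ (It f m) W V)) 0 Λ m n (VSA_Rvnn _ _ _ _ _) (VSA_Rvnn _ _ _ _ _)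
      (VSA_Rvnn _ _ _ _ _) le_rfl (by rw [Real.exp_zero, one_mul]; exact h1)
    unfold pv
    linarith
  · linarith
  · rw [abs_le]
    constructor
    · exact hlow _ (VSA_hopnn f m N W)
    · have h1 : Real.log (2 * B) * ((m : ℝ) + 1) ≤ (4 * C0 + Real.log (2 * B) + 1 + Λ) * (m + 1) :=
        mul_le_mul_of_nonneg_right (by linarith) (by positivity)
      linarith
  · rw [abs_le]
    constructor
    · exact hlow _ (VSA_Rvnn f m N W V)
    · have h1 : Real.log (2 * B) * ((m : ℝ) + 1) + 4 * C0 ≤ (4 * C0 + Real.log (2 * B) + 1 + Λ) * (m + 1) := by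
        have h2 : 0 ≤ 4 * C0 * (m : ℝ) := by positivity
        have h4 : 0 ≤ (1 + Λ) * ((m : ℝ) + 1) := by positivity
        nlinarith
      linarith

end Pool.Agent.P2V
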